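import Pool.Agent.H958R6.Stmts

set_option autoImplicit false

namespace H263R3.KN.Conv

open Finset H958R6

theorem c_zero : c 0 = 1 := by simp [c]

theorem c_succ (j : ℕ) : (2 * (j : ℚ) + 2) * c (j + 1) = (2 * j + 1) * c j := by
  have h := Nat.succ_mul_centralBinom_succ j
  have h' : ((j : ℚ) + 1) * (((2 * (j + 1)).choose (j + 1) : ℕ) : ℚ) =
      2 * (2 * j + 1) * (((2 * j).choose j : ℕ) : ℚ) := by
    have := congrArg (fun n : ℕ => (n : ℚ)) h
    simp only [Nat.centralBinom] at this
    push_cast at this
    exact this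
  unfold c
  rw [pow_succ]
  have h4 : (4 : ℚ) ^ j ≠ 0 := by positivity
  field_simp
  linear_combination 2 * h'

/-- the full convolution -/
noncomputable def S (m : ℕ) : ℚ := ∑ j ∈ range (m + 1), c j * c (m - j)

theorem flip (m : ℕ) (f : ℕ → ℚ) :
    ∑ j ∈ range (m + 1), f (m - j) = ∑ j ∈ range (m + 1), f j := by
  have := Finset.sum_range_reflect f (m + 1)
  rw [← this]
  refine Finset.sum_congr rfl fun j hj => ?_
  have := Finset.mem_range.1 hj
  congr 1

theorem two_sum (m : ℕ) : 2 * ∑ j ∈ range (m + 1), (j : ℚ) * (c j * c (m - j)) = m * S m := by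
  have h := flip m (fun j => (j : ℚ) * (c j * c (m - j)))
  have h2 : ∑ j ∈ range (m + 1), (j : ℚ) * (c j * c (m - j)) =
      ∑ j ∈ range (m + 1), ((m : ℚ) - j) * (c j * c (m - j)) := by
    rw [← h]
    refine Finset.sum_congr rfl fun j hj => ?_
    have hj' := Finset.mem_range.1 hj
    have hle : j ≤ m := by omega
    rw [Nat.cast_sub hle, Nat.sub_sub_self hle]
    ring
  have h3 : 2 * ∑ j ∈ range (m + 1), (j : ℚ) * (c j * c (m - j)) =
      ∑ j ∈ range (m + 1), (j : ℚ) * (c j * c (m - j)) +
      ∑ j ∈ range (m + 1), ((m : ℚ) - j) * (c j * c (m - j)) := by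
    rw [← h2]; ring
  rw [h3, ← Finset.sum_add_distrib, S, Finset.mul_sum]
  refine Finset.sum_congr rfl fun j _ => ?_
  ring

theorem S_eq (m : ℕ) : S m = 1 := by
  induction m with
  | zero => simp [S, c_zero]
  | succ m ih =>
    have h1 := two_sum (m + 1)
    have h2 : 2 * ∑ j ∈ range (m + 1 + 1), (j : ℚ) * (c j * c (m + 1 - j)) =
        2 * (∑ j ∈ range (m + 1), (j : ℚ) * (c j * c (m - j))) + S m := by
      rw [Finset.sum_range_succ', S]
      simp only [Nat.cast_zero, zero_mul, add_zero]
      rw [Finset.mul_sum, Finset.mul_sum, ← Finset.sum_add_distrib]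
      refine Finset.sum_congr rfl fun j hj => ?_
      have hj' := Finset.mem_range.1 hj
      have e : m + 1 - (j + 1) = m - j := by omega
      rw [e]
      have := c_succ j
      push_cast
      linear_combination (c (m - j)) * this
    rw [h2, two_sum m, ih] at h1
    push_cast at h1
    have h3 : ((m : ℚ) + 1) * S (m + 1) = (m + 1) * 1 := by linear_combination -h1
    exact mul_left_cancel₀ (by positivity) h3

theorem symm (m : ℕ) : ∑ j ∈ (range (m + 1)).filter (fun j => 2 * j < m), c j * c (m - j) =
    ∑ j ∈ (range (m + 1)).filter (fun j => m < 2 * j), c j * c (m - j) := by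
  rw [Finset.sum_filter, Finset.sum_filter,
    ← flip m (fun j => if m < 2 * j then c j * c (m - j) else 0)]
  refine Finset.sum_congr rfl fun j hj => ?_
  have hj' := Finset.mem_range.1 hj
  have hle : j ≤ m := by omega
  have e : m - (m - j) = j := Nat.sub_sub_self hle
  simp only [e]
  by_cases h : 2 * j < m
  · rw [if_pos h, if_pos (by omega), mul_comm]
  · rw [if_neg h, if_neg (by omega)]

theorem total (m : ℕ) : ∑ j ∈ (range (m + 1)).filter (fun j => 2 * j < m), c j * c (m - j) +
    ∑ j ∈ (range (m + 1)).filter (fun j => 2 * j = m), c j * c (m - j) +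
    ∑ j ∈ (range (m + 1)).filter (fun j => m < 2 * j), c j * c (m - j) = 1 := by
  rw [← S_eq m, S, Finset.sum_filter, Finset.sum_filter, Finset.sum_filter,
    ← Finset.sum_add_distrib, ← Finset.sum_add_distrib]
  refine Finset.sum_congr rfl fun j _ => ?_
  rcases lt_trichotomy (2 * j) m with h | h | h
  · rw [if_pos h, if_neg (by omega), if_neg (by omega)]; ring
  · rw [if_neg (by omega), if_pos h, if_neg (by omega)]; ring
  · rw [if_neg (by omega), if_neg (by omega), if_pos h]; ring

theorem le_split (m : ℕ) : ∑ j ∈ (range (m + 1)).filter (fun j => 2 * j ≤ m), c j * c (m - j) =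
    ∑ j ∈ (range (m + 1)).filter (fun j => 2 * j < m), c j * c (m - j) +
    ∑ j ∈ (range (m + 1)).filter (fun j => 2 * j = m), c j * c (m - j) := by
  rw [Finset.sum_filter, Finset.sum_filter, Finset.sum_filter, ← Finset.sum_add_distrib]
  refine Finset.sum_congr rfl fun j _ => ?_
  rcases lt_trichotomy (2 * j) m with h | h | h
  · rw [if_pos (by omega), if_pos h, if_neg (by omega)]; ring
  · rw [if_pos (by omega), if_neg (by omega), if_pos h]; ring
  · rw [if_neg (by omega), if_neg (by omega), if_neg (by omega)]; ring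

theorem ge_split (m : ℕ) : ∑ j ∈ (range (m + 1)).filter (fun j => m ≤ 2 * j), c j * c (m - j) =
    ∑ j ∈ (range (m + 1)).filter (fun j => m < 2 * j), c j * c (m - j) +
    ∑ j ∈ (range (m + 1)).filter (fun j => 2 * j = m), c j * c (m - j) := by
  rw [Finset.sum_filter, Finset.sum_filter, Finset.sum_filter, ← Finset.sum_add_distrib]
  refine Finset.sum_congr rfl fun j _ => ?_
  rcases lt_trichotomy (2 * j) m with h | h | h
  · rw [if_neg (by omega), if_neg (by omega), if_neg (by omega)]; ring
  · rw [if_pos (by omega), if_neg (by omega), if_pos h]; ring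
  · rw [if_pos (by omega), if_pos h, if_neg (by omega)]; ring

theorem mid_odd (l : ℕ) :
    ∑ j ∈ (range (2 * l + 1 + 1)).filter (fun j => 2 * j = 2 * l + 1), c j * c (2 * l + 1 - j) = 0 := by
  rw [Finset.filter_false_of_mem, Finset.sum_empty]
  intro j _
  omega

theorem mid_even (l : ℕ) :
    ∑ j ∈ (range (2 * l + 1)).filter (fun j => 2 * j = 2 * l), c j * c (2 * l - j) = c l ^ 2 := by
  have : (range (2 * l + 1)).filter (fun j => 2 * j = 2 * l) = {l} := by
    ext j
    simp only [Finset.mem_filter, Finset.mem_range, Finset.mem_singleton]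
    omega
  rw [this, Finset.sum_singleton]
  have e : 2 * l - l = l := by omega
  rw [e, sq]

theorem taskConv : TaskConv := by
  refine ⟨fun l => ?_, fun l => ?_, fun l => ?_, fun l => ?_, fun l => ?_, fun l => ?_⟩
  · have h1 := total (2 * l + 1)
    rw [mid_odd, ← symm] at h1
    linarith
  · have h1 := total (2 * l + 1)
    rw [mid_odd, symm] at h1
    linarith
  · have h1 := total (2 * l)
    rw [mid_even, ← symm] at h1
    linarith
  · have h1 := total (2 * l)
    rw [mid_even, symm] at h1
    linarith
  · have h1 := total (2 * l)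
    rw [mid_even, ← symm] at h1
    rw [le_split, mid_even]
    linarith
  · have h1 := total (2 * l)
    rw [mid_even, symm] at h1
    rw [ge_split, mid_even]
    linarith

end H263R3.KN.Conv
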